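import Pool.Agent.H5.BHG.Stmts

/-!
# Board `bhg`, row LSN (helper25): soundness of `lvs`
-/

set_option autoImplicit false

namespace Pool.BHG

open Filter TMLib Pool.PG Pool.DPG

theorem lsn_thm (h1 : RCGStmt) (h2 : ONSStmt) : LSNStmt := by
  intro s
  induction s with
  | zero => exact h2.1
  | succ s ih =>
    intro g
    have h := h1 one c0 (lvs s) g (h2.1 g) (ih g) (g.length + 1)
    exact h

end Pool.BHG
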